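import Pool.Agent.H32.SSC.Zero

open Pool.Agent.H32.SSE Pool.Agent.H32.SSC

namespace Pool.Agent.Results.MP_8ae193_an.CycleWilliams

/-- Williams' conjecture holds for matrices over `ℕ` all of whose irreducible components are single
cycles, with arbitrary multiplicities on the cycles and arbitrary entries between components: two
such matrices are shift equivalent over `ℕ` if and only if they are strong shift equivalent
over `ℕ`. -/
theorem result (X Y : Mat) (hX : CycleComponents X) (hY : CycleComponents Y) :
    ShiftEq X Y ↔ SSEquiv X Y :=
  final_cycle hX hY

end Pool.Agent.Results.MP_8ae193_an.CycleWilliams
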