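import Pool.Agent.H32.SSC.Zero

open Pool.Agent.H32.SSE Pool.Agent.H32.SSC

namespace Pool.Agent.Results.MP_8ae193_an.ZeroEntropy

/-- If the traces of the powers of `X` are bounded (equivalently, the spectral radius of `X` is at
most `1`; the shift of finite type of `X` has entropy zero), then the shift equivalence class of `X`
over `ℕ` is a single strong shift equivalence class over `ℕ`: every square matrix `Y` over `ℕ`, of
any size, that is shift equivalent to `X` is strong shift equivalent to `X`. -/
theorem result (X Y : Mat) (hX : ∃ d : ℕ, ∀ k : ℕ, Matrix.trace (X.2 ^ k) ≤ d) :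
    ShiftEq X Y ↔ SSEquiv X Y :=
  let ⟨_, h⟩ := hX
  final_zero h

end Pool.Agent.Results.MP_8ae193_an.ZeroEntropy
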